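import Pool.Agent.H70.KAL.TI
import Pool.Agent.H87.KAL.GIB

/-!
# Principle M: the tilt of full planks is a function of the box

In a box (the context) the position has the coordinates `Y` (along the planks) and `X` (normal to
the planks). A label `v` fixes a family of planks in the box: `X = A + g (v, Y)`, where `A` is the
number of the plank. The planks are full: `Y` is nearly independent of `(A, v)`. If the position
`(X, Y)` is nearly independent of the label `v`, then the law of the position is nearly invariant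
under the differences of the displacements of two independent labels. So, if the rows of `X` are
not full, the label is a function of the box.
-/

set_option autoImplicit false

namespace Pool.KAL

open Finset Real MeasureTheory
open Pool.Agent.H49.Ent Pool.Agent.H32.Dense Pool.STK Pool.KAF
open TI

namespace PRM

variable {Ω : Type} [Fintype Ω]

/-- Two nearly independent variables, compared with two independent samples. -/
lemma indep_pair {S T : Type} (p : Ω → ℝ) (hp : IsLaw p) (U : Ω → S) (V : Ω → T)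
    (F : S → T → ℝ) (e : ℝ) (h0 : ∀ s t, 0 ≤ F s t) (h1 : ∀ s t, F s t ≤ 1)
    (hI : H p U + H p V - H p (fun ω => (U ω, V ω)) ≤ e) :
    |∑ ω, p ω * F (U ω) (V ω) - ∑ ω, ∑ ω', p ω * p ω' * F (U ω) (V ω')| ≤ Real.sqrt e := by
  classical
  have hpin := Pool.KVA.pinsker p U V hp.nonneg hp.sum_one
  have hsq := Real.sqrt_le_sqrt hI
  set G := (univ.image U) ×ˢ (univ.image V) with hG
  have hsub : univ.image (fun ω => (U ω, V ω)) ⊆ G := by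
    intro g hg
    obtain ⟨ω, -, rfl⟩ := Finset.mem_image.mp hg
    exact Finset.mem_product.mpr ⟨Finset.mem_image_of_mem _ (Finset.mem_univ _),
      Finset.mem_image_of_mem _ (Finset.mem_univ _)⟩
  have a1 : ∀ f : S × T → ℝ, ∑ ω, p ω * f (U ω, V ω) =
      ∑ g ∈ G, law p (fun ω => (U ω, V ω)) g * f g := by
    intro f
    rw [sum_mul_eq_sum_image p (fun ω => (U ω, V ω)) f]
    refine Finset.sum_subset hsub fun g _ hg => ?_
    rw [law_eq_zero_of_notMem p _ hg, zero_mul]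
  have a2 : ∀ f : S × T → ℝ, ∑ ω, ∑ ω', p ω * p ω' * f (U ω, V ω') =
      ∑ g ∈ G, law p U g.1 * law p V g.2 * f g := by
    intro f
    rw [hG, Finset.sum_product]
    have b1 : ∀ ω, ∑ ω', p ω * p ω' * f (U ω, V ω') =
        p ω * ∑ t ∈ univ.image V, law p V t * f (U ω, t) := by
      intro ω
      rw [← sum_mul_eq_sum_image p V (fun t => f (U ω, t)), Finset.mul_sum]
      exact Finset.sum_congr rfl fun ω' _ => by ring
    rw [Finset.sum_congr rfl fun ω _ => b1 ω]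
    rw [sum_mul_eq_sum_image p U (fun s => ∑ t ∈ univ.image V, law p V t * f (s, t))]
    refine Finset.sum_congr rfl fun s _ => ?_
    rw [Finset.mul_sum]
    exact Finset.sum_congr rfl fun t _ => by ring
  have a3 : ∑ g ∈ G, law p (fun ω => (U ω, V ω)) g = 1 := by
    have := a1 fun _ => 1
    simpa [hp.sum_one] using this.symm
  have a4 : ∑ g ∈ G, law p U g.1 * law p V g.2 = 1 := by
    have := a2 fun _ => 1
    simp only [mul_one] at this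
    rw [← this]
    simp_rw [← Finset.mul_sum]
    rw [hp.sum_one]
    simp [hp.sum_one]
  have a5 : ∑ ω, p ω * F (U ω) (V ω) - ∑ ω, ∑ ω', p ω * p ω' * F (U ω) (V ω') =
      ∑ g ∈ G, (law p (fun ω => (U ω, V ω)) g - law p U g.1 * law p V g.2) *
        (F g.1 g.2 - 1 / 2) := by
    have b1 := a1 fun g => F g.1 g.2
    have b2 := a2 fun g => F g.1 g.2
    simp only at b1 b2
    rw [b1, b2]
    have b3 : ∑ g ∈ G, (law p (fun ω => (U ω, V ω)) g - law p U g.1 * law p V g.2) *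
        (F g.1 g.2 - 1 / 2) =
        (∑ g ∈ G, law p (fun ω => (U ω, V ω)) g * F g.1 g.2 -
          ∑ g ∈ G, law p U g.1 * law p V g.2 * F g.1 g.2) -
        1 / 2 * (∑ g ∈ G, law p (fun ω => (U ω, V ω)) g -
          ∑ g ∈ G, law p U g.1 * law p V g.2) := by
      rw [← Finset.sum_sub_distrib, ← Finset.sum_sub_distrib, Finset.mul_sum,
        ← Finset.sum_sub_distrib]
      exact Finset.sum_congr rfl fun g _ => by ring
    rw [b3, a3, a4]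
    ring
  rw [a5]
  have a6 : |∑ g ∈ G, (law p (fun ω => (U ω, V ω)) g - law p U g.1 * law p V g.2) *
        (F g.1 g.2 - 1 / 2)| ≤
      1 / 2 * ∑ g ∈ G, |law p (fun ω => (U ω, V ω)) g - law p U g.1 * law p V g.2| := by
    refine (Finset.abs_sum_le_sum_abs _ _).trans ?_
    rw [Finset.mul_sum]
    refine Finset.sum_le_sum fun g _ => ?_
    rw [abs_mul, mul_comm]
    refine mul_le_mul_of_nonneg_right ?_ (abs_nonneg _)
    rw [abs_le]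
    constructor <;> linarith [h0 g.1 g.2, h1 g.1 g.2]
  linarith only [hsq, hpin, a6]

/-- The mean over two independent samples: the number of the plank and the label come from the
first sample, the coordinate along the plank from the second one. -/
lemma pair_ineq {d N : ℕ} {SY SV : Type} (p : Ω → ℝ) (hp : IsLaw p) (hN : 0 < N)
    (X A : Ω → Fin d → ℤ) (Y : Ω → SY) (v : Ω → SV) (g : SV → SY → Fin d → ℤ) (B : Set Ω)
    (R e₁ e₂ : ℝ) (hR : 0 ≤ R)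
    (hB : ∀ ω, ω ∉ B → ∀ i, |((X ω i - A ω i - g (v ω) (Y ω) i : ℤ) : ℝ)| ≤ R)
    (hX : H p (fun ω => (X ω, Y ω)) + H p v - H p (fun ω => ((X ω, Y ω), v ω)) ≤ e₁)
    (hA : H p (fun ω => (A ω, v ω)) + H p Y - H p (fun ω => ((A ω, v ω), Y ω)) ≤ e₂)
    (E : SV → SY → Set (Fin d → ℤ)) :
    |∑ ω, ∑ ω', p ω * p ω' * avg d N (E (v ω) (Y ω')) (X ω') -
      ∑ ω, ∑ ω', p ω * p ω' * avg d N (E (v ω) (Y ω')) (A ω + g (v ω) (Y ω'))| ≤
      Real.sqrt e₁ + Real.sqrt e₂ + Pr p B + d * R / N := by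
  classical
  have i1 := indep_pair p hp (fun ω => (X ω, Y ω)) v
    (fun z s => avg d N (E s z.2) z.1) e₁ (fun _ _ => avg_nonneg _ _)
    (fun _ _ => avg_le_one hN _ _) hX
  have i2 := indep_pair p hp (fun ω => (A ω, v ω)) Y
    (fun z y => avg d N (E z.2 y) (z.1 + g z.2 y)) e₂ (fun _ _ => avg_nonneg _ _)
    (fun _ _ => avg_le_one hN _ _) hA
  simp only at i1 i2
  have e1 : ∑ ω, ∑ ω', p ω * p ω' * avg d N (E (v ω') (Y ω)) (X ω) =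
      ∑ ω, ∑ ω', p ω * p ω' * avg d N (E (v ω) (Y ω')) (X ω') := by
    rw [Finset.sum_comm]
    exact Finset.sum_congr rfl fun ω _ => Finset.sum_congr rfl fun ω' _ => by ring
  rw [e1] at i1
  have i3 : |∑ ω, p ω * avg d N (E (v ω) (Y ω)) (X ω) -
      ∑ ω, p ω * avg d N (E (v ω) (Y ω)) (A ω + g (v ω) (Y ω))| ≤ Pr p B + d * R / N := by
    rw [← Finset.sum_sub_distrib]
    refine (Finset.abs_sum_le_sum_abs _ _).trans ?_
    have b1 : ∀ ω, |p ω * avg d N (E (v ω) (Y ω)) (X ω) -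
        p ω * avg d N (E (v ω) (Y ω)) (A ω + g (v ω) (Y ω))| ≤
        (if ω ∈ B then p ω else 0) + p ω * (d * R / N) := by
      intro ω
      have hpω := hp.nonneg ω
      have hpos : 0 ≤ d * R / N := by positivity
      rw [← mul_sub, abs_mul, abs_of_nonneg hpω]
      by_cases hω : ω ∈ B
      · rw [if_pos hω]
        have c1 := avg_nonneg (N := N) (E (v ω) (Y ω)) (X ω)
        have c2 := avg_le_one hN (E (v ω) (Y ω)) (X ω)
        have c3 := avg_nonneg (N := N) (E (v ω) (Y ω)) (A ω + g (v ω) (Y ω))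
        have c4 := avg_le_one hN (E (v ω) (Y ω)) (A ω + g (v ω) (Y ω))
        have c5 : |avg d N (E (v ω) (Y ω)) (X ω) -
            avg d N (E (v ω) (Y ω)) (A ω + g (v ω) (Y ω))| ≤ 1 := by
          rw [abs_le]
          constructor <;> linarith
        have c6 : 0 ≤ p ω * (d * R / N) := mul_nonneg hpω hpos
        nlinarith only [c6, hpω, c5]
      · rw [if_neg hω, zero_add]
        refine mul_le_mul_of_nonneg_left ?_ hpω
        have c1 := avg_shift hN (E (v ω) (Y ω)) (A ω + g (v ω) (Y ω))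
          (X ω - A ω - g (v ω) (Y ω)) R (by
            intro i
            have := hB ω hω i
            simpa using this)
        have c2 : A ω + g (v ω) (Y ω) + (X ω - A ω - g (v ω) (Y ω)) = X ω := by abel
        rwa [c2] at c1
    refine (Finset.sum_le_sum fun ω _ => b1 ω).trans ?_
    rw [Finset.sum_add_distrib, ← Finset.sum_mul, hp.sum_one, one_mul, Pr_eq]
  rw [abs_le] at *
  constructor <;> linarith only [i1, i2, i3, i1.1, i1.2, i2.1, i2.2, i3.1, i3.2]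

/-- Four sums, two of them outside. -/
lemma sum4_a {p : Ω → ℝ} (F : Ω → Ω → Ω → Ω → ℝ) :
    ∑ ω₁, ∑ ω₂, ∑ ω₃, ∑ ω₄, p ω₁ * p ω₂ * p ω₃ * p ω₄ * F ω₁ ω₂ ω₃ ω₄ =
      ∑ ω₂, ∑ ω₄, p ω₂ * p ω₄ * ∑ ω₁, ∑ ω₃, p ω₁ * p ω₃ * F ω₁ ω₂ ω₃ ω₄ := by
  rw [Finset.sum_comm]
  refine Finset.sum_congr rfl fun ω₂ _ => ?_
  have h1 : ∑ ω₁, ∑ ω₃, ∑ ω₄, p ω₁ * p ω₂ * p ω₃ * p ω₄ * F ω₁ ω₂ ω₃ ω₄ =
      ∑ ω₁, ∑ ω₄, ∑ ω₃, p ω₁ * p ω₂ * p ω₃ * p ω₄ * F ω₁ ω₂ ω₃ ω₄ :=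
    Finset.sum_congr rfl fun ω₁ _ => Finset.sum_comm
  rw [h1, Finset.sum_comm]
  refine Finset.sum_congr rfl fun ω₄ _ => ?_
  rw [Finset.mul_sum]
  refine Finset.sum_congr rfl fun ω₁ _ => ?_
  rw [Finset.mul_sum]
  exact Finset.sum_congr rfl fun ω₃ _ => by ring

lemma sum4_b {p : Ω → ℝ} (F : Ω → Ω → Ω → Ω → ℝ) :
    ∑ ω₁, ∑ ω₂, ∑ ω₃, ∑ ω₄, p ω₁ * p ω₂ * p ω₃ * p ω₄ * F ω₁ ω₂ ω₃ ω₄ =
      ∑ ω₂, ∑ ω₃, p ω₂ * p ω₃ * ∑ ω₁, ∑ ω₄, p ω₁ * p ω₄ * F ω₁ ω₂ ω₃ ω₄ := by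
  rw [Finset.sum_comm]
  refine Finset.sum_congr rfl fun ω₂ _ => ?_
  rw [Finset.sum_comm]
  refine Finset.sum_congr rfl fun ω₃ _ => ?_
  rw [Finset.mul_sum]
  refine Finset.sum_congr rfl fun ω₁ _ => ?_
  rw [Finset.mul_sum]
  exact Finset.sum_congr rfl fun ω₄ _ => by ring

lemma sum4_swap {p : Ω → ℝ} (F : Ω → Ω → Ω → Ω → ℝ) :
    ∑ ω₁, ∑ ω₂, ∑ ω₃, ∑ ω₄, p ω₁ * p ω₂ * p ω₃ * p ω₄ * F ω₁ ω₂ ω₃ ω₄ =
      ∑ ω₁, ∑ ω₂, ∑ ω₃, ∑ ω₄, p ω₁ * p ω₂ * p ω₃ * p ω₄ * F ω₂ ω₁ ω₃ ω₄ := by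
  rw [Finset.sum_comm]
  exact Finset.sum_congr rfl fun ω₂ _ => Finset.sum_congr rfl fun ω₁ _ =>
    Finset.sum_congr rfl fun ω₃ _ => Finset.sum_congr rfl fun ω₄ _ => by ring

lemma abs_avg2 {p : Ω → ℝ} (hp : IsLaw p) (f : Ω → Ω → ℝ) (η : ℝ) (h : ∀ a b, |f a b| ≤ η) :
    |∑ a, ∑ b, p a * p b * f a b| ≤ η := by
  have h1 : ∀ a, |∑ b, p a * p b * f a b| ≤ p a * η := by
    intro a
    refine (Finset.abs_sum_le_sum_abs _ _).trans ?_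
    have h2 : ∀ b, |p a * p b * f a b| ≤ p a * (p b * η) := by
      intro b
      rw [abs_mul, abs_of_nonneg (mul_nonneg (hp.nonneg a) (hp.nonneg b)), mul_assoc]
      exact mul_le_mul_of_nonneg_left (mul_le_mul_of_nonneg_left (h a b) (hp.nonneg b))
        (hp.nonneg a)
    refine (Finset.sum_le_sum fun b _ => h2 b).trans ?_
    rw [← Finset.mul_sum, ← Finset.sum_mul, hp.sum_one, one_mul]
  refine (Finset.abs_sum_le_sum_abs _ _).trans ((Finset.sum_le_sum fun a _ => h1 a).trans ?_)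
  rw [← Finset.sum_mul, hp.sum_one, one_mul]

lemma avg_add {d N : ℕ} (E : Set (Fin d → ℤ)) (z c : Fin d → ℤ) :
    avg d N {x | x + c ∈ E} z = avg d N E (z + c) := by
  unfold avg
  have h : ∀ τ : Fin d → Fin N, ((fun i => z i + ((τ i : ℕ) : ℤ)) ∈ {x | x + c ∈ E}) ↔
      ((fun i => (z + c) i + ((τ i : ℕ) : ℤ)) ∈ E) := by
    intro τ
    have h1 : (fun i => z i + ((τ i : ℕ) : ℤ)) + c = fun i => (z + c) i + ((τ i : ℕ) : ℤ) := by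
      funext i
      simp only [Pi.add_apply]
      ring
    rw [← h1]
    exact Iff.rfl
  refine congrArg (fun F : Finset (Fin d → Fin N) => (F.card : ℝ) / (N : ℝ) ^ d) ?_
  ext τ
  simp only [Finset.mem_filter, Finset.mem_univ, true_and]
  exact h τ

lemma avg_sub {d N : ℕ} (E : Set (Fin d → ℤ)) (z c : Fin d → ℤ) :
    avg d N {x | x - c ∈ E} z = avg d N E (z - c) := by
  have h := avg_add (N := N) E z (-c)
  simpa only [← sub_eq_add_neg] using h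

/-- **Principle M**, four samples. The law of the position `(X, Y)` is nearly invariant under the
differences of the displacements of two independent labels. -/
lemma four {d N : ℕ} {SY SV : Type} (p : Ω → ℝ) (hp : IsLaw p) (hN : 0 < N)
    (X A : Ω → Fin d → ℤ) (Y : Ω → SY) (v : Ω → SV) (g : SV → SY → Fin d → ℤ) (B : Set Ω)
    (R e₁ e₂ : ℝ) (hR : 0 ≤ R)
    (hB : ∀ ω, ω ∉ B → ∀ i, |((X ω i - A ω i - g (v ω) (Y ω) i : ℤ) : ℝ)| ≤ R)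
    (hX : H p (fun ω => (X ω, Y ω)) + H p v - H p (fun ω => ((X ω, Y ω), v ω)) ≤ e₁)
    (hA : H p (fun ω => (A ω, v ω)) + H p Y - H p (fun ω => ((A ω, v ω), Y ω)) ≤ e₂)
    (E : SV → SV → SY → SY → Set (Fin d → ℤ)) :
    |∑ ω₁, ∑ ω₂, ∑ ω₃, ∑ ω₄, p ω₁ * p ω₂ * p ω₃ * p ω₄ *
        avg d N (E (v ω₁) (v ω₂) (Y ω₃) (Y ω₄)) (X ω₃) -
      ∑ ω₁, ∑ ω₂, ∑ ω₃, ∑ ω₄, p ω₁ * p ω₂ * p ω₃ * p ω₄ *
        avg d N (E (v ω₁) (v ω₂) (Y ω₃) (Y ω₄))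
          (X ω₃ + ((g (v ω₁) (Y ω₃) - g (v ω₁) (Y ω₄)) - (g (v ω₂) (Y ω₃) - g (v ω₂) (Y ω₄))))| ≤
      4 * (Real.sqrt e₁ + Real.sqrt e₂ + Pr p B + d * R / N) := by
  classical
  set η := Real.sqrt e₁ + Real.sqrt e₂ + Pr p B + d * R / N with hη
  -- one label against two coordinates
  have step : ∀ Q : SV → SV → SY → SY → Set (Fin d → ℤ),
      |∑ ω₁, ∑ ω₂, ∑ ω₃, ∑ ω₄, p ω₁ * p ω₂ * p ω₃ * p ω₄ *
          avg d N (Q (v ω₁) (v ω₂) (Y ω₃) (Y ω₄))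
            (X ω₃ - (g (v ω₁) (Y ω₃) - g (v ω₁) (Y ω₄))) -
        ∑ ω₁, ∑ ω₂, ∑ ω₃, ∑ ω₄, p ω₁ * p ω₂ * p ω₃ * p ω₄ *
          avg d N (Q (v ω₁) (v ω₂) (Y ω₃) (Y ω₄)) (X ω₄)| ≤ 2 * η := by
    intro Q
    have s1 : |∑ ω₁, ∑ ω₂, ∑ ω₃, ∑ ω₄, p ω₁ * p ω₂ * p ω₃ * p ω₄ *
          avg d N (Q (v ω₁) (v ω₂) (Y ω₃) (Y ω₄))
            (X ω₃ - (g (v ω₁) (Y ω₃) - g (v ω₁) (Y ω₄))) -
        ∑ ω₁, ∑ ω₂, ∑ ω₃, ∑ ω₄, p ω₁ * p ω₂ * p ω₃ * p ω₄ *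
          avg d N (Q (v ω₁) (v ω₂) (Y ω₃) (Y ω₄)) (A ω₁ + g (v ω₁) (Y ω₄))| ≤ η := by
      rw [sum4_a (p := p) (fun ω₁ ω₂ ω₃ ω₄ => avg d N (Q (v ω₁) (v ω₂) (Y ω₃) (Y ω₄))
            (X ω₃ - (g (v ω₁) (Y ω₃) - g (v ω₁) (Y ω₄)))),
        sum4_a (p := p) (fun ω₁ ω₂ ω₃ ω₄ => avg d N (Q (v ω₁) (v ω₂) (Y ω₃) (Y ω₄))
            (A ω₁ + g (v ω₁) (Y ω₄))), ← Finset.sum_sub_distrib]
      have hcongr : ∀ a, (∑ b, p a * p b * ∑ ω₁, ∑ ω₃, p ω₁ * p ω₃ *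
            avg d N (Q (v ω₁) (v a) (Y ω₃) (Y b)) (X ω₃ - (g (v ω₁) (Y ω₃) - g (v ω₁) (Y b)))) -
          (∑ b, p a * p b * ∑ ω₁, ∑ ω₃, p ω₁ * p ω₃ *
            avg d N (Q (v ω₁) (v a) (Y ω₃) (Y b)) (A ω₁ + g (v ω₁) (Y b))) =
          ∑ b, p a * p b * ((∑ ω₁, ∑ ω₃, p ω₁ * p ω₃ *
            avg d N (Q (v ω₁) (v a) (Y ω₃) (Y b)) (X ω₃ - (g (v ω₁) (Y ω₃) - g (v ω₁) (Y b)))) -
            ∑ ω₁, ∑ ω₃, p ω₁ * p ω₃ *
            avg d N (Q (v ω₁) (v a) (Y ω₃) (Y b)) (A ω₁ + g (v ω₁) (Y b))) := by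
        intro a
        rw [← Finset.sum_sub_distrib]
        exact Finset.sum_congr rfl fun b _ => by ring
      rw [Finset.sum_congr rfl fun a _ => hcongr a]
      refine abs_avg2 hp _ η fun a b => ?_
      have h1 := pair_ineq p hp hN X A Y v g B R e₁ e₂ hR hB hX hA
        (fun s y => {x | x - (g s y - g s (Y b)) ∈ Q s (v a) y (Y b)})
      simp only [avg_sub] at h1
      have h2 : ∀ ω₁ ω₃, A ω₁ + g (v ω₁) (Y ω₃) - (g (v ω₁) (Y ω₃) - g (v ω₁) (Y b)) =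
          A ω₁ + g (v ω₁) (Y b) := fun ω₁ ω₃ => by abel
      simp only [h2] at h1
      exact h1
    have s2 : |∑ ω₁, ∑ ω₂, ∑ ω₃, ∑ ω₄, p ω₁ * p ω₂ * p ω₃ * p ω₄ *
          avg d N (Q (v ω₁) (v ω₂) (Y ω₃) (Y ω₄)) (X ω₄) -
        ∑ ω₁, ∑ ω₂, ∑ ω₃, ∑ ω₄, p ω₁ * p ω₂ * p ω₃ * p ω₄ *
          avg d N (Q (v ω₁) (v ω₂) (Y ω₃) (Y ω₄)) (A ω₁ + g (v ω₁) (Y ω₄))| ≤ η := by
      rw [sum4_b (p := p) (fun ω₁ ω₂ ω₃ ω₄ => avg d N (Q (v ω₁) (v ω₂) (Y ω₃) (Y ω₄))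
            (X ω₄)),
        sum4_b (p := p) (fun ω₁ ω₂ ω₃ ω₄ => avg d N (Q (v ω₁) (v ω₂) (Y ω₃) (Y ω₄))
            (A ω₁ + g (v ω₁) (Y ω₄))), ← Finset.sum_sub_distrib]
      have hcongr : ∀ a, (∑ b, p a * p b * ∑ ω₁, ∑ ω₄, p ω₁ * p ω₄ *
            avg d N (Q (v ω₁) (v a) (Y b) (Y ω₄)) (X ω₄)) -
          (∑ b, p a * p b * ∑ ω₁, ∑ ω₄, p ω₁ * p ω₄ *
            avg d N (Q (v ω₁) (v a) (Y b) (Y ω₄)) (A ω₁ + g (v ω₁) (Y ω₄))) =
          ∑ b, p a * p b * ((∑ ω₁, ∑ ω₄, p ω₁ * p ω₄ *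
            avg d N (Q (v ω₁) (v a) (Y b) (Y ω₄)) (X ω₄)) -
            ∑ ω₁, ∑ ω₄, p ω₁ * p ω₄ *
            avg d N (Q (v ω₁) (v a) (Y b) (Y ω₄)) (A ω₁ + g (v ω₁) (Y ω₄))) := by
        intro a
        rw [← Finset.sum_sub_distrib]
        exact Finset.sum_congr rfl fun b _ => by ring
      rw [Finset.sum_congr rfl fun a _ => hcongr a]
      refine abs_avg2 hp _ η fun a b => ?_
      exact pair_ineq p hp hN X A Y v g B R e₁ e₂ hR hB hX hA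
        (fun s y => Q s (v a) (Y b) y)
    rw [abs_le] at s1 s2 ⊢
    constructor <;> linarith only [s1, s2, s1.1, s1.2, s2.1, s2.2]
  -- the two labels
  have t1 := step fun s s' y y' => {x | x + (g s y - g s y') ∈ E s s' y y'}
  have t2 := step fun s s' y y' => {x | x + (g s' y - g s' y') ∈ E s' s y y'}
  simp only [avg_add] at t1 t2
  have c1 : ∀ ω₁ ω₃ ω₄, X ω₃ - (g (v ω₁) (Y ω₃) - g (v ω₁) (Y ω₄)) +
      (g (v ω₁) (Y ω₃) - g (v ω₁) (Y ω₄)) = X ω₃ := fun _ _ _ => sub_add_cancel _ _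
  simp only [c1] at t1
  rw [sum4_swap (p := p) (fun ω₁ ω₂ ω₃ ω₄ => avg d N (E (v ω₂) (v ω₁) (Y ω₃) (Y ω₄))
      (X ω₃ - (g (v ω₁) (Y ω₃) - g (v ω₁) (Y ω₄)) + (g (v ω₂) (Y ω₃) - g (v ω₂) (Y ω₄)))),
    sum4_swap (p := p) (fun ω₁ ω₂ ω₃ ω₄ => avg d N (E (v ω₂) (v ω₁) (Y ω₃) (Y ω₄))
      (X ω₄ + (g (v ω₂) (Y ω₃) - g (v ω₂) (Y ω₄))))] at t2
  have c2 : ∀ ω₁ ω₂ ω₃ ω₄, X ω₃ - (g (v ω₂) (Y ω₃) - g (v ω₂) (Y ω₄)) +
      (g (v ω₁) (Y ω₃) - g (v ω₁) (Y ω₄)) =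
      X ω₃ + ((g (v ω₁) (Y ω₃) - g (v ω₁) (Y ω₄)) - (g (v ω₂) (Y ω₃) - g (v ω₂) (Y ω₄))) :=
    fun _ _ _ _ => by abel
  simp only [c2] at t2
  rw [abs_le] at t1 t2 ⊢
  constructor <;> linarith only [t1, t2, t1.1, t1.2, t2.1, t2.2]

/-- The four sums, with the names of the samples `1, 2, 3, 5` and the sample `4` outside. -/
lemma sum5_a {p : Ω → ℝ} (F : Ω → Ω → Ω → Ω → Ω → ℝ) :
    ∑ ω₁, ∑ ω₂, ∑ ω₄, ∑ ω₅, p ω₁ * p ω₂ * p ω₄ * p ω₅ * ∑ ω₃, p ω₃ * F ω₁ ω₂ ω₃ ω₄ ω₅ =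
      ∑ ω₅, p ω₅ * ∑ ω₁, ∑ ω₂, ∑ ω₃, ∑ ω₄, p ω₁ * p ω₂ * p ω₃ * p ω₄ * F ω₁ ω₂ ω₃ ω₄ ω₅ := by
  have h1 : ∀ ω₁ ω₂, ∑ ω₄, ∑ ω₅, p ω₁ * p ω₂ * p ω₄ * p ω₅ * ∑ ω₃, p ω₃ * F ω₁ ω₂ ω₃ ω₄ ω₅ =
      ∑ ω₅, p ω₅ * ∑ ω₃, ∑ ω₄, p ω₁ * p ω₂ * p ω₃ * p ω₄ * F ω₁ ω₂ ω₃ ω₄ ω₅ := by
    intro ω₁ ω₂
    rw [Finset.sum_comm]
    refine Finset.sum_congr rfl fun ω₅ _ => ?_
    rw [Finset.sum_comm (s := univ) (t := univ)
      (f := fun ω₃ ω₄ => p ω₁ * p ω₂ * p ω₃ * p ω₄ * F ω₁ ω₂ ω₃ ω₄ ω₅), Finset.mul_sum]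
    refine Finset.sum_congr rfl fun ω₄ _ => ?_
    rw [Finset.mul_sum, Finset.mul_sum]
    exact Finset.sum_congr rfl fun ω₃ _ => by ring
  have h2 : ∀ ω₁, ∑ ω₂, ∑ ω₅, p ω₅ * ∑ ω₃, ∑ ω₄,
        p ω₁ * p ω₂ * p ω₃ * p ω₄ * F ω₁ ω₂ ω₃ ω₄ ω₅ =
      ∑ ω₅, p ω₅ * ∑ ω₂, ∑ ω₃, ∑ ω₄, p ω₁ * p ω₂ * p ω₃ * p ω₄ * F ω₁ ω₂ ω₃ ω₄ ω₅ := by
    intro ω₁
    rw [Finset.sum_comm]
    exact Finset.sum_congr rfl fun ω₅ _ => by rw [Finset.mul_sum]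
  rw [Finset.sum_congr rfl fun ω₁ _ => Finset.sum_congr rfl fun ω₂ _ => h1 ω₁ ω₂,
    Finset.sum_congr rfl fun ω₁ _ => h2 ω₁, Finset.sum_comm]
  exact Finset.sum_congr rfl fun ω₅ _ => by rw [Finset.mul_sum]

lemma sum5_b {p : Ω → ℝ} (F : Ω → Ω → Ω → Ω → Ω → ℝ) :
    ∑ ω₁, ∑ ω₂, ∑ ω₄, ∑ ω₅, p ω₁ * p ω₂ * p ω₄ * p ω₅ * ∑ ω₃, p ω₃ * F ω₁ ω₂ ω₃ ω₄ ω₅ =
      ∑ ω₄, p ω₄ * ∑ ω₁, ∑ ω₂, ∑ ω₃, ∑ ω₅, p ω₁ * p ω₂ * p ω₃ * p ω₅ * F ω₁ ω₂ ω₃ ω₄ ω₅ := by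
  rw [← sum5_a (p := p) (fun ω₁ ω₂ ω₃ ω₅ ω₄ => F ω₁ ω₂ ω₃ ω₄ ω₅)]
  refine Finset.sum_congr rfl fun ω₁ _ => Finset.sum_congr rfl fun ω₂ _ => ?_
  rw [Finset.sum_comm]
  exact Finset.sum_congr rfl fun ω₅ _ => Finset.sum_congr rfl fun ω₄ _ => by ring

lemma abs_avg1 {p : Ω → ℝ} (hp : IsLaw p) (f : Ω → ℝ) (η : ℝ) (h : ∀ a, |f a| ≤ η) :
    |∑ a, p a * f a| ≤ η := by
  refine (Finset.abs_sum_le_sum_abs _ _).trans ?_
  have h2 : ∀ a, |p a * f a| ≤ p a * η := by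
    intro a
    rw [abs_mul, abs_of_nonneg (hp.nonneg a)]
    exact mul_le_mul_of_nonneg_left (h a) (hp.nonneg a)
  refine (Finset.sum_le_sum fun a _ => h2 a).trans ?_
  rw [← Finset.sum_mul, hp.sum_one, one_mul]

/-- Principle M, five samples: the two coordinates which enter the displacement are independent of
the position. -/
lemma five {d N : ℕ} {SY SV : Type} (p : Ω → ℝ) (hp : IsLaw p) (hN : 0 < N)
    (X A : Ω → Fin d → ℤ) (Y : Ω → SY) (v : Ω → SV) (g : SV → SY → Fin d → ℤ) (B : Set Ω)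
    (R e₁ e₂ : ℝ) (hR : 0 ≤ R)
    (hB : ∀ ω, ω ∉ B → ∀ i, |((X ω i - A ω i - g (v ω) (Y ω) i : ℤ) : ℝ)| ≤ R)
    (hX : H p (fun ω => (X ω, Y ω)) + H p v - H p (fun ω => ((X ω, Y ω), v ω)) ≤ e₁)
    (hA : H p (fun ω => (A ω, v ω)) + H p Y - H p (fun ω => ((A ω, v ω), Y ω)) ≤ e₂)
    (E : SV → SV → SY → SY → Set ((Fin d → ℤ) × SY)) :
    |∑ ω₁, ∑ ω₂, ∑ ω₄, ∑ ω₅, p ω₁ * p ω₂ * p ω₄ * p ω₅ *
        ∑ ω₃, p ω₃ * avg d N {z | (z, Y ω₃) ∈ E (v ω₁) (v ω₂) (Y ω₄) (Y ω₅)} (X ω₃) -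
      ∑ ω₁, ∑ ω₂, ∑ ω₄, ∑ ω₅, p ω₁ * p ω₂ * p ω₄ * p ω₅ *
        ∑ ω₃, p ω₃ * avg d N {z | (z, Y ω₃) ∈ E (v ω₁) (v ω₂) (Y ω₄) (Y ω₅)}
          (X ω₃ + ((g (v ω₁) (Y ω₅) - g (v ω₁) (Y ω₄)) - (g (v ω₂) (Y ω₅) - g (v ω₂) (Y ω₄))))| ≤
      8 * (Real.sqrt e₁ + Real.sqrt e₂ + Pr p B + d * R / N) := by
  classical
  set η := Real.sqrt e₁ + Real.sqrt e₂ + Pr p B + d * R / N with hη
  have s1 : |∑ ω₁, ∑ ω₂, ∑ ω₄, ∑ ω₅, p ω₁ * p ω₂ * p ω₄ * p ω₅ *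
        ∑ ω₃, p ω₃ * avg d N {z | (z, Y ω₃) ∈ E (v ω₁) (v ω₂) (Y ω₄) (Y ω₅)} (X ω₃) -
      ∑ ω₁, ∑ ω₂, ∑ ω₄, ∑ ω₅, p ω₁ * p ω₂ * p ω₄ * p ω₅ *
        ∑ ω₃, p ω₃ * avg d N {z | (z, Y ω₃) ∈ E (v ω₁) (v ω₂) (Y ω₄) (Y ω₅)}
          (X ω₃ + ((g (v ω₁) (Y ω₃) - g (v ω₁) (Y ω₄)) - (g (v ω₂) (Y ω₃) - g (v ω₂) (Y ω₄))))| ≤
      4 * η := by
    rw [sum5_a (p := p) (fun ω₁ ω₂ ω₃ ω₄ ω₅ =>
        avg d N {z | (z, Y ω₃) ∈ E (v ω₁) (v ω₂) (Y ω₄) (Y ω₅)} (X ω₃)),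
      sum5_a (p := p) (fun ω₁ ω₂ ω₃ ω₄ ω₅ =>
        avg d N {z | (z, Y ω₃) ∈ E (v ω₁) (v ω₂) (Y ω₄) (Y ω₅)}
          (X ω₃ + ((g (v ω₁) (Y ω₃) - g (v ω₁) (Y ω₄)) -
            (g (v ω₂) (Y ω₃) - g (v ω₂) (Y ω₄))))), ← Finset.sum_sub_distrib]
    simp only [← mul_sub]
    refine abs_avg1 hp _ _ fun ω₅ => ?_
    exact four p hp hN X A Y v g B R e₁ e₂ hR hB hX hA
      (fun s s' y y' => {z | (z, y) ∈ E s s' y' (Y ω₅)})
  have s2 : |∑ ω₁, ∑ ω₂, ∑ ω₄, ∑ ω₅, p ω₁ * p ω₂ * p ω₄ * p ω₅ *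
        ∑ ω₃, p ω₃ * avg d N {z | (z, Y ω₃) ∈ E (v ω₁) (v ω₂) (Y ω₄) (Y ω₅)}
          (X ω₃ + ((g (v ω₁) (Y ω₅) - g (v ω₁) (Y ω₄)) - (g (v ω₂) (Y ω₅) - g (v ω₂) (Y ω₄)))) -
      ∑ ω₁, ∑ ω₂, ∑ ω₄, ∑ ω₅, p ω₁ * p ω₂ * p ω₄ * p ω₅ *
        ∑ ω₃, p ω₃ * avg d N {z | (z, Y ω₃) ∈ E (v ω₁) (v ω₂) (Y ω₄) (Y ω₅)}
          (X ω₃ + ((g (v ω₁) (Y ω₃) - g (v ω₁) (Y ω₄)) - (g (v ω₂) (Y ω₃) - g (v ω₂) (Y ω₄))))| ≤
      4 * η := by
    rw [sum5_b (p := p) (fun ω₁ ω₂ ω₃ ω₄ ω₅ =>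
        avg d N {z | (z, Y ω₃) ∈ E (v ω₁) (v ω₂) (Y ω₄) (Y ω₅)}
          (X ω₃ + ((g (v ω₁) (Y ω₅) - g (v ω₁) (Y ω₄)) -
            (g (v ω₂) (Y ω₅) - g (v ω₂) (Y ω₄))))),
      sum5_b (p := p) (fun ω₁ ω₂ ω₃ ω₄ ω₅ =>
        avg d N {z | (z, Y ω₃) ∈ E (v ω₁) (v ω₂) (Y ω₄) (Y ω₅)}
          (X ω₃ + ((g (v ω₁) (Y ω₃) - g (v ω₁) (Y ω₄)) -
            (g (v ω₂) (Y ω₃) - g (v ω₂) (Y ω₄))))), ← Finset.sum_sub_distrib]
    simp only [← mul_sub]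
    refine abs_avg1 hp _ _ fun ω₄ => ?_
    have h := four p hp hN X A Y v g B R e₁ e₂ hR hB hX hA
      (fun s s' y y'' => {z | z + ((g s y'' - g s (Y ω₄)) - (g s' y'' - g s' (Y ω₄))) ∈
        {x | (x, y) ∈ E s s' (Y ω₄) y''}})
    simp only [avg_add] at h
    have c1 : ∀ ω₁ ω₂ ω₃ ω₅, X ω₃ + ((g (v ω₁) (Y ω₃) - g (v ω₁) (Y ω₅)) -
        (g (v ω₂) (Y ω₃) - g (v ω₂) (Y ω₅))) + ((g (v ω₁) (Y ω₅) - g (v ω₁) (Y ω₄)) -
        (g (v ω₂) (Y ω₅) - g (v ω₂) (Y ω₄))) = X ω₃ + ((g (v ω₁) (Y ω₃) - g (v ω₁) (Y ω₄)) -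
        (g (v ω₂) (Y ω₃) - g (v ω₂) (Y ω₄))) := fun _ _ _ _ => by abel
    simp only [c1] at h
    exact h
  rw [abs_le] at s1 s2 ⊢
  constructor <;> linarith only [s1, s2, s1.1, s1.2, s2.1, s2.2]

end PRM

open Classical in
/-- **Principle M.** Four independent samples: two labels `v` and two coordinates `Y`. The
difference of the displacements is an approximate invariance of the law of the position, outside a
small probability. -/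
def PRMStmt : Prop :=
  ∀ (d N : ℕ) (Ω SY SV : Type) [Fintype Ω] (p : Ω → ℝ) (X A : Ω → Fin d → ℤ) (Y : Ω → SY)
    (v : Ω → SV) (g : SV → SY → Fin d → ℤ) (B : Set Ω) (R e₁ e₂ e : ℝ), IsLaw p → 0 < N →
    0 ≤ R → 0 < e → (∀ ω, ω ∉ B → ∀ i, |((X ω i - A ω i - g (v ω) (Y ω) i : ℤ) : ℝ)| ≤ R) →
    H p (fun ω => (X ω, Y ω)) + H p v - H p (fun ω => ((X ω, Y ω), v ω)) ≤ e₁ →
    H p (fun ω => (A ω, v ω)) + H p Y - H p (fun ω => ((A ω, v ω), Y ω)) ≤ e₂ →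
    ∑ ω₁, ∑ ω₂, ∑ ω₃, ∑ ω₄, p ω₁ * p ω₂ * p ω₃ * p ω₄ *
      (if TIV (smp d N p) (smX (N := N) X) (fun w => Y w.1)
        ((g (v ω₁) (Y ω₄) - g (v ω₁) (Y ω₃)) - (g (v ω₂) (Y ω₄) - g (v ω₂) (Y ω₃))) e
        then 0 else 1) ≤
      8 * (Real.sqrt e₁ + Real.sqrt e₂ + Pr p B + d * R / N) / e

theorem prm_thm : PRMStmt := by
  classical
  intro d N Ω SY SV _ p X A Y v g B R e₁ e₂ e hp hN hR he hB hX hA
  set δ : SV → SV → SY → SY → Fin d → ℤ := fun s s' y y' => (g s y' - g s y) - (g s' y' - g s' y)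
    with hδ
  set D : SV → SV → SY → SY → Set ((Fin d → ℤ) × SY) → ℝ := fun s s' y y' E =>
    ∑ ω₃, p ω₃ * avg d N {z | (z, Y ω₃) ∈ E} (X ω₃) -
      ∑ ω₃, p ω₃ * avg d N {z | (z, Y ω₃) ∈ E} (X ω₃ + δ s s' y y') with hD
  have hDP : ∀ s s' y y' (E : Set ((Fin d → ℤ) × SY)), D s s' y y' E =
      Pr (smp d N p) {w | (smX (N := N) X w, Y w.1) ∈ E} -
        Pr (smp d N p) {w | (smX (N := N) X w + δ s s' y y', Y w.1) ∈ E} := by
    intro s s' y y' E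
    have h1 := Pr_smp (N := N) p X (fun ω => {z | (z, Y ω) ∈ E})
    have h2 := Pr_smp (N := N) p X (fun ω => {z | z + δ s s' y y' ∈ {x | (x, Y ω) ∈ E}})
    simp only [PRM.avg_add] at h2
    simp only [hD]
    rw [← h1, ← h2]
    rfl
  have hch : ∀ s s' y y', ∃ E : Set ((Fin d → ℤ) × SY),
      (if TIV (smp d N p) (smX (N := N) X) (fun w => Y w.1) (δ s s' y y') e then 0 else e) ≤
        D s s' y y' E := by
    intro s s' y y'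
    by_cases hT : TIV (smp d N p) (smX (N := N) X) (fun w => Y w.1) (δ s s' y y') e
    · refine ⟨∅, ?_⟩
      rw [if_pos hT, hDP]
      simp
    · rw [if_neg hT]
      unfold TIV at hT
      push Not at hT
      obtain ⟨E, hE⟩ := hT
      rcases le_total 0 (D s s' y y' E) with h | h
      · refine ⟨E, ?_⟩
        have h1 := hDP s s' y y' E
        rw [← h1, abs_of_nonneg h] at hE
        exact hE.le
      · refine ⟨Eᶜ, ?_⟩
        have h1 := hDP s s' y y' E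
        rw [← h1, abs_of_nonpos h] at hE
        have h2 : D s s' y y' Eᶜ = - D s s' y y' E := by
          rw [hDP, hDP]
          have c1 : ∀ f : Ω × (Fin d → Fin N) → (Fin d → ℤ) × SY,
              Pr (smp d N p) {w | f w ∈ Eᶜ} =
                ∑ w, smp d N p w - Pr (smp d N p) {w | f w ∈ E} := by
            intro f
            rw [Pr_eq, Pr_eq, ← Finset.sum_sub_distrib]
            refine Finset.sum_congr rfl fun w _ => ?_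
            by_cases hw : f w ∈ E
            · rw [if_neg (by intro h'; exact h' hw), if_pos (by exact hw)]
              ring
            · rw [if_pos (by exact hw), if_neg (by exact hw)]
              ring
          rw [c1 (fun w => (smX (N := N) X w, Y w.1)),
            c1 (fun w => (smX (N := N) X w + δ s s' y y', Y w.1))]
          ring
        rw [h2]
        exact hE.le
  choose E hE using hch
  have h5 := PRM.five p hp hN X A Y v g B R e₁ e₂ hR hB hX hA E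
  rw [← Finset.sum_sub_distrib] at h5
  rw [le_div_iff₀ he]
  refine le_trans ?_ ((le_abs_self _).trans h5)
  rw [Finset.sum_mul]
  refine Finset.sum_le_sum fun ω₁ _ => ?_
  rw [← Finset.sum_sub_distrib, Finset.sum_mul]
  refine Finset.sum_le_sum fun ω₂ _ => ?_
  rw [← Finset.sum_sub_distrib, Finset.sum_mul]
  refine Finset.sum_le_sum fun ω₃ _ => ?_
  rw [← Finset.sum_sub_distrib, Finset.sum_mul]
  refine Finset.sum_le_sum fun ω₄ _ => ?_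
  have h6 := hE (v ω₁) (v ω₂) (Y ω₃) (Y ω₄)
  have h7 : 0 ≤ p ω₁ * p ω₂ * p ω₃ * p ω₄ := mul_nonneg (mul_nonneg (mul_nonneg (hp.nonneg _)
    (hp.nonneg _)) (hp.nonneg _)) (hp.nonneg _)
  have h8 := mul_le_mul_of_nonneg_left h6 h7
  simp only [hD, hδ] at h8
  rw [← mul_sub]
  refine le_trans (le_of_eq ?_) h8
  split_ifs <;> ring

/-! ### Rows which are not full -/

namespace PRM

variable {Ω : Type} [Fintype Ω]

lemma isLaw_smp {d N : ℕ} (hN : 0 < N) {p : Ω → ℝ} (hp : IsLaw p) : IsLaw (smp d N p) := by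
  have hN0 : (0 : ℝ) < N := by exact_mod_cast hN
  refine ⟨fun w => div_nonneg (hp.nonneg _) (by positivity), ?_⟩
  unfold smp
  rw [Fintype.sum_prod_type]
  have h1 : ∀ ω, ∑ τ : Fin d → Fin N, p (ω, τ).1 / (N : ℝ) ^ d = p ω := by
    intro ω
    simp only [Finset.sum_const, Finset.card_univ, Fintype.card_fun, Fintype.card_fin,
      nsmul_eq_mul, Nat.cast_pow]
    field_simp
  rw [Finset.sum_congr rfl fun ω _ => h1 ω, hp.sum_one]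

/-- The entropy of a variable of the first coordinate. -/
lemma law_smp {d N : ℕ} {S : Type} (hN : 0 < N) (p : Ω → ℝ) (X : Ω → S) (s : S) :
    law (smp d N p) (fun w => X w.1) s = law p X s := by
  classical
  have hN0 : (0 : ℝ) < N := by exact_mod_cast hN
  unfold law
  rw [Fintype.sum_prod_type]
  refine Finset.sum_congr rfl fun ω _ => ?_
  unfold smp
  by_cases h : X ω = s
  · simp only [h, if_true, Finset.sum_const, Finset.card_univ, Fintype.card_fun,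
      Fintype.card_fin, nsmul_eq_mul, Nat.cast_pow]
    field_simp
  · simp [h]

lemma H_smp {d N : ℕ} {S : Type} (hN : 0 < N) (p : Ω → ℝ) (X : Ω → S) :
    H (smp d N p) (fun w => X w.1) = H p X := by
  have hN0 : (0 : ℝ) < N := by exact_mod_cast hN
  unfold H
  simp only [law_smp hN]
  rw [Fintype.sum_prod_type]
  refine congrArg Neg.neg (Finset.sum_congr rfl fun ω _ => ?_)
  unfold smp
  simp only [Finset.sum_const, Finset.card_univ, Fintype.card_fun, Fintype.card_fin,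
    nsmul_eq_mul, Nat.cast_pow]
  field_simp

lemma CH_smp {d N : ℕ} {S T : Type} (hN : 0 < N) (p : Ω → ℝ) (X : Ω → S) (W : Ω → T) :
    CH (smp d N p) (fun w => X w.1) (fun w => W w.1) = CH p X W := by
  unfold CH
  rw [H_smp hN p W, H_smp hN p (fun ω => (X ω, W ω))]

/-- The image of an invariance under an additive map. -/
lemma TIV_map {G G' U : Type} [Add G] [Add G'] {p : Ω → ℝ} {X : Ω → G} {V : Ω → U} {x : G}
    {ε : ℝ} (φ : G → G') (hφ : ∀ a b, φ (a + b) = φ a + φ b) (h : TIV p X V x ε) :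
    TIV p (fun ω => φ (X ω)) V (φ x) ε := by
  intro E
  have h1 := h {z | (φ z.1, z.2) ∈ E}
  have e1 : Pr p {ω | (X ω, V ω) ∈ {z : G × U | (φ z.1, z.2) ∈ E}} =
      Pr p {ω | (φ (X ω), V ω) ∈ E} := Pr_congr p fun ω => Iff.rfl
  have e2 : Pr p {ω | (X ω + x, V ω) ∈ {z : G × U | (φ z.1, z.2) ∈ E}} =
      Pr p {ω | (φ (X ω) + φ x, V ω) ∈ E} := Pr_congr p fun ω => by
    show (φ (X ω + x), V ω) ∈ E ↔ (φ (X ω) + φ x, V ω) ∈ E
    rw [hφ]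
  rwa [e1, e2] at h1

/-- A variable with two possible values. -/
lemma CH_two {T : Type} {p : Ω → ℝ} (hp : IsLaw p) (X : Ω → ℤ) (W : Ω → T) (z : T → ℤ)
    (h : ∀ ω, X ω = z (W ω) ∨ X ω = z (W ω) - 1 ∨ X ω = z (W ω) + 1) :
    CH p X W ≤ Real.log 3 := by
  classical
  have h1 := CH_le_card hp.nonneg hp.sum_one X W (fun t => {z t, z t - 1, z t + 1}) (by
    intro ω _
    simp only [Finset.mem_insert, Finset.mem_singleton]
    exact h ω)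
  refine h1.trans ?_
  unfold Ex
  have h2 : ∀ ω, p ω * Real.log ((({z (W ω), z (W ω) - 1, z (W ω) + 1} : Finset ℤ)).card) ≤
      p ω * Real.log 3 := by
    intro ω
    refine mul_le_mul_of_nonneg_left ?_ (hp.nonneg ω)
    refine Real.log_le_log ?_ ?_
    · have : 0 < ({z (W ω), z (W ω) - 1, z (W ω) + 1} : Finset ℤ).card :=
        Finset.card_pos.2 ⟨z (W ω), by simp⟩
      exact_mod_cast this
    · exact_mod_cast Finset.card_le_three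
  refine (Finset.sum_le_sum fun ω _ => h2 ω).trans ?_
  rw [← Finset.sum_mul, hp.sum_one, one_mul]

/-- The rows of the smoothed position. -/
lemma CH_smooth {SY : Type} {N a B : ℕ} {p : Ω → ℝ} (hp : IsLaw p) (hN : 0 < N) (hNa : N ≤ a)
    (haB : a ∣ B) (hB : 0 < B) (X : Ω → ℤ) (Y : Ω → SY) :
    CH (smp 1 N p) (fun w => (X w.1 + ((w.2 0 : ℕ) : ℤ)) / (a : ℤ))
        (fun w => ((X w.1 + ((w.2 0 : ℕ) : ℤ)) / (B : ℤ), Y w.1)) ≤
      CH p (fun ω => X ω / (a : ℤ)) (fun ω => (X ω / (B : ℤ), Y ω)) + 2 * Real.log 3 := by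
  have ha : 0 < a := lt_of_lt_of_le hN hNa
  have haZ : (0 : ℤ) < a := by exact_mod_cast ha
  have hBZ : (0 : ℤ) < B := by exact_mod_cast hB
  have haB' : a ≤ B := Nat.le_of_dvd hB haB
  have hq := isLaw_smp (d := 1) hN hp
  have key : ∀ (b : ℕ), 0 < b → a ≤ b → ∀ w : Ω × (Fin 1 → Fin N),
      (X w.1 + ((w.2 0 : ℕ) : ℤ)) / (b : ℤ) = X w.1 / (b : ℤ) ∨
        (X w.1 + ((w.2 0 : ℕ) : ℤ)) / (b : ℤ) = X w.1 / (b : ℤ) + 1 := by
    intro b hb hab w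
    have hbZ : (0 : ℤ) < b := by exact_mod_cast hb
    have h2 : ((w.2 0 : ℕ) : ℤ) < b := by
      have := (w.2 0).2
      exact_mod_cast lt_of_lt_of_le this (hNa.trans hab)
    have h3 : (0 : ℤ) ≤ ((w.2 0 : ℕ) : ℤ) := by positivity
    have l1 : X w.1 / (b : ℤ) ≤ (X w.1 + ((w.2 0 : ℕ) : ℤ)) / (b : ℤ) :=
      Int.ediv_le_ediv hbZ (by linarith only)
    have l2 : (X w.1 + ((w.2 0 : ℕ) : ℤ)) / (b : ℤ) ≤ X w.1 / (b : ℤ) + 1 := by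
      have : X w.1 / (b : ℤ) + 1 = (X w.1 + 1 * b) / (b : ℤ) := by
        rw [Int.add_mul_ediv_right _ _ hbZ.ne']
      rw [this]
      exact Int.ediv_le_ediv hbZ (by linarith only [h2])
    omega
  set q := smp 1 N p with hqd
  set X' : Ω × (Fin 1 → Fin N) → ℤ := fun w => X w.1 + ((w.2 0 : ℕ) : ℤ) with hX'
  have s1 := CH_le_add hq.nonneg (fun w => X' w / (a : ℤ)) (fun w => X w.1 / (B : ℤ))
    (fun w => (X' w / (B : ℤ), Y w.1))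
  have s2 : CH q (fun w => X w.1 / (B : ℤ)) (fun w => (X' w / (B : ℤ), Y w.1)) ≤
      Real.log 3 := by
    refine CH_two hq _ _ (fun t => t.1) ?_
    intro w
    rcases key B hB haB' w with h | h
    · left
      exact h.symm
    · right; left
      simp only [hX'] at h ⊢
      rw [h]
      ring
  have s3 := CH_le_add hq.nonneg (fun w => X' w / (a : ℤ)) (fun w => X w.1 / (a : ℤ))
    (fun w => (X w.1 / (B : ℤ), (X' w / (B : ℤ), Y w.1)))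
  have s4 : CH q (fun w => X w.1 / (a : ℤ)) (fun w => (X w.1 / (B : ℤ), (X' w / (B : ℤ), Y w.1)))
      ≤ CH q (fun w => X w.1 / (a : ℤ)) (fun w => (X w.1 / (B : ℤ), Y w.1)) := by
    refine CH_mono_cond hq.nonneg ?_
    intro w w' _ _ h
    have h1 := Prod.ext_iff.1 h
    have h2 := Prod.ext_iff.1 h1.2
    exact Prod.ext h1.1 h2.2
  have s5 : CH q (fun w => X w.1 / (a : ℤ)) (fun w => (X w.1 / (B : ℤ), Y w.1)) =
      CH p (fun ω => X ω / (a : ℤ)) (fun ω => (X ω / (B : ℤ), Y ω)) :=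
    CH_smp hN p (fun ω => X ω / (a : ℤ)) (fun ω => (X ω / (B : ℤ), Y ω))
  have s6 : CH q (fun w => X' w / (a : ℤ)) (fun w => (X w.1 / (a : ℤ),
      (X w.1 / (B : ℤ), (X' w / (B : ℤ), Y w.1)))) ≤ Real.log 3 := by
    refine CH_two hq _ _ (fun t => t.1) ?_
    intro w
    rcases key a ha le_rfl w with h | h
    · left
      exact h
    · right; right
      exact h
  linarith only [s1, s2, s3, s4, s5, s6]

end PRM

open Classical in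
/-- **Principle M for one normal coordinate.** If the rows between `a` and `B` of the position `X`
are not full, then the difference of the displacements is rarely of a size between `a` and
`2 B / M`. -/
def PRM2Stmt : Prop :=
  ∀ (N a b M : ℕ) (Ω SY SV : Type) [Fintype Ω] (p : Ω → ℝ) (X A : Ω → ℤ) (Y : Ω → SY)
    (v : Ω → SV) (g : SV → SY → ℤ) (B : Set Ω) (R e₁ e₂ e : ℝ), IsLaw p → 0 < N → N ≤ a →
    a ∣ b → 0 < b → 2 ≤ M → 0 ≤ R → 0 < e →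
    (∀ ω, ω ∉ B → |((X ω - A ω - g (v ω) (Y ω) : ℤ) : ℝ)| ≤ R) →
    H p (fun ω => (X ω, Y ω)) + H p v - H p (fun ω => ((X ω, Y ω), v ω)) ≤ e₁ →
    H p (fun ω => (A ω, v ω)) + H p Y - H p (fun ω => ((A ω, v ω), Y ω)) ≤ e₂ →
    CH p (fun ω => X ω / (a : ℤ)) (fun ω => (X ω / (b : ℤ), Y ω)) + 2 * Real.log 3 + 2 <
      (1 - 2 * (M * e)) * Real.log (M / 2) →
    ∑ ω₁, ∑ ω₂, ∑ ω₃, ∑ ω₄, p ω₁ * p ω₂ * p ω₃ * p ω₄ *
      (if a ≤ (((g (v ω₁) (Y ω₄) - g (v ω₁) (Y ω₃)) -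
          (g (v ω₂) (Y ω₄) - g (v ω₂) (Y ω₃))).natAbs) ∧
        M * (((g (v ω₁) (Y ω₄) - g (v ω₁) (Y ω₃)) -
          (g (v ω₂) (Y ω₄) - g (v ω₂) (Y ω₃))).natAbs) ≤ 2 * b + (((g (v ω₁) (Y ω₄) -
          g (v ω₁) (Y ω₃)) - (g (v ω₂) (Y ω₄) - g (v ω₂) (Y ω₃))).natAbs) then 1 else 0) ≤
      8 * (Real.sqrt e₁ + Real.sqrt e₂ + Pr p B + R / N) / e

theorem prm2_thm : PRM2Stmt := by
  classical
  intro N a b M Ω SY SV _ p X A Y v g B R e₁ e₂ e hp hN hNa hab hb hM hR he hB hX hA hrow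
  have ha : 0 < a := lt_of_lt_of_le hN hNa
  -- the vectors with one coordinate
  have hX1 : H p (fun ω => ((fun _ : Fin 1 => X ω), Y ω)) + H p v -
      H p (fun ω => (((fun _ : Fin 1 => X ω), Y ω), v ω)) ≤ e₁ := by
    have h1 : H p (fun ω => ((fun _ : Fin 1 => X ω), Y ω)) = H p (fun ω => (X ω, Y ω)) := by
      refine H_congr hp.nonneg ?_ ?_
      · intro ω ω' _ _ h
        have h1 := Prod.ext_iff.1 h
        exact Prod.ext (funext fun _ => h1.1) h1.2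
      · intro ω ω' _ _ h
        have h1 := Prod.ext_iff.1 h
        exact Prod.ext (congrFun h1.1 0) h1.2
    have h2 : H p (fun ω => (((fun _ : Fin 1 => X ω), Y ω), v ω)) =
        H p (fun ω => ((X ω, Y ω), v ω)) := by
      refine H_congr hp.nonneg ?_ ?_
      · intro ω ω' _ _ h
        have h1 := Prod.ext_iff.1 h
        have h2 := Prod.ext_iff.1 h1.1
        exact Prod.ext (Prod.ext (funext fun _ => h2.1) h2.2) h1.2
      · intro ω ω' _ _ h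
        have h1 := Prod.ext_iff.1 h
        have h2 := Prod.ext_iff.1 h1.1
        exact Prod.ext (Prod.ext (congrFun h2.1 0) h2.2) h1.2
    rw [h1, h2]
    exact hX
  have hA1 : H p (fun ω => ((fun _ : Fin 1 => A ω), v ω)) + H p Y -
      H p (fun ω => (((fun _ : Fin 1 => A ω), v ω), Y ω)) ≤ e₂ := by
    have h1 : H p (fun ω => ((fun _ : Fin 1 => A ω), v ω)) = H p (fun ω => (A ω, v ω)) := by
      refine H_congr hp.nonneg ?_ ?_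
      · intro ω ω' _ _ h
        have h1 := Prod.ext_iff.1 h
        exact Prod.ext (funext fun _ => h1.1) h1.2
      · intro ω ω' _ _ h
        have h1 := Prod.ext_iff.1 h
        exact Prod.ext (congrFun h1.1 0) h1.2
    have h2 : H p (fun ω => (((fun _ : Fin 1 => A ω), v ω), Y ω)) =
        H p (fun ω => ((A ω, v ω), Y ω)) := by
      refine H_congr hp.nonneg ?_ ?_
      · intro ω ω' _ _ h
        have h1 := Prod.ext_iff.1 h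
        have h2 := Prod.ext_iff.1 h1.1
        exact Prod.ext (Prod.ext (funext fun _ => h2.1) h2.2) h1.2
      · intro ω ω' _ _ h
        have h1 := Prod.ext_iff.1 h
        have h2 := Prod.ext_iff.1 h1.1
        exact Prod.ext (Prod.ext (congrFun h2.1 0) h2.2) h1.2
    rw [h1, h2]
    exact hA
  have hmain := prm_thm 1 N Ω SY SV p (fun ω _ => X ω) (fun ω _ => A ω) Y v
    (fun s y _ => g s y) B R e₁ e₂ e hp hN hR he (fun ω hω _ => hB ω hω) hX1 hA1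
  have hR' : ((1 : ℕ) : ℝ) * R / N = R / N := by simp
  rw [hR'] at hmain
  refine le_trans ?_ hmain
  refine Finset.sum_le_sum fun ω₁ _ => Finset.sum_le_sum fun ω₂ _ =>
    Finset.sum_le_sum fun ω₃ _ => Finset.sum_le_sum fun ω₄ _ => ?_
  have h7 : 0 ≤ p ω₁ * p ω₂ * p ω₃ * p ω₄ := mul_nonneg (mul_nonneg (mul_nonneg (hp.nonneg _)
    (hp.nonneg _)) (hp.nonneg _)) (hp.nonneg _)
  refine mul_le_mul_of_nonneg_left ?_ h7
  set z : ℤ := (g (v ω₁) (Y ω₄) - g (v ω₁) (Y ω₃)) - (g (v ω₂) (Y ω₄) - g (v ω₂) (Y ω₃)) with hz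
  by_cases hT : TIV (smp 1 N p) (smX (N := N) (fun ω (_ : Fin 1) => X ω)) (fun w => Y w.1)
      (((fun _ : Fin 1 => g (v ω₁) (Y ω₄)) - (fun _ : Fin 1 => g (v ω₁) (Y ω₃))) -
        ((fun _ : Fin 1 => g (v ω₂) (Y ω₄)) - (fun _ : Fin 1 => g (v ω₂) (Y ω₃)))) e
  · rw [if_pos hT, if_neg]
    rintro ⟨c1, c2⟩
    have t1 := PRM.TIV_map (fun x : Fin 1 → ℤ => x 0) (fun _ _ => rfl) hT
    have t2 : TIV (smp 1 N p) (fun w => X w.1 + ((w.2 0 : ℕ) : ℤ)) (fun w => Y w.1) z e := t1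
    have t3 : TIV (smp 1 N p) (fun w => X w.1 + ((w.2 0 : ℕ) : ℤ)) (fun w => Y w.1)
        ((z.natAbs : ℕ) : ℤ) e := by
      rcases Int.natAbs_eq z with h | h
      · rw [← h]
        exact t2
      · have h' : ((z.natAbs : ℕ) : ℤ) = -z := by omega
        rw [h']
        exact (ti2_thm _ _ ℤ _ _ _ z z e e t2 t2).2.1
    have t4 := ti3_thm _ _ (smp 1 N p) (fun w => X w.1 + ((w.2 0 : ℕ) : ℤ)) (fun w => Y w.1)
      a b z.natAbs M e (PRM.isLaw_smp hN hp) ha hab hb c1 c2 hM he.le t3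
    have t5 := PRM.CH_smooth hp hN hNa hab hb X Y
    linarith only [hrow, t4, t5]
  · rw [if_neg hT]
    split_ifs <;> norm_num

open Classical in
/-- **Principle M with slopes.** In a box with nearly uniform coordinate `Y` along the planks, whose
rows normal to the planks are not full, the slopes of two independent labels are close to each
other. -/
def PRM3Stmt : Prop :=
  ∀ (N a b M M₀ : ℕ) (Ω SV : Type) [Fintype Ω] (p : Ω → ℝ) (X A : Ω → ℤ) (Y : Ω → ℕ)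
    (v : Ω → SV) (σ : SV → ℝ) (B : Set Ω) (R e₁ e₂ e S₀ θ₀ : ℝ), IsLaw p → 0 < N → N ≤ a →
    a ∣ b → 0 < b → 2 ≤ M → 0 ≤ R → 0 < e → (∀ ω, Y ω < M₀) → 100 ≤ M₀ → e₂ ≤ 1 / 10 →
    (∀ s, |σ s| ≤ S₀) → (2 * S₀ * M₀ + 2) * M ≤ 2 * b → 16 * ((a : ℝ) + 2) ≤ θ₀ * M₀ →
    (∀ ω, ω ∉ B → |((X ω - A ω - ⌊σ (v ω) * Y ω⌋ : ℤ) : ℝ)| ≤ R) →
    H p (fun ω => (X ω, Y ω)) + H p v - H p (fun ω => ((X ω, Y ω), v ω)) ≤ e₁ →
    Real.log M₀ - CH p Y (fun ω => (A ω, v ω)) ≤ e₂ →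
    CH p (fun ω => X ω / (a : ℤ)) (fun ω => (X ω / (b : ℤ), Y ω)) + 2 * Real.log 3 + 2 <
      (1 - 2 * (M * e)) * Real.log (M / 2) →
    ∑ ω₁, ∑ ω₂, p ω₁ * p ω₂ * (if θ₀ ≤ |σ (v ω₁) - σ (v ω₂)| then 1 else 0) ≤
      16 * (Real.sqrt e₁ + Real.sqrt e₂ + Pr p B + R / N) / e

theorem prm3_thm : PRM3Stmt := by
  classical
  intro N a b M M₀ Ω SV _ p X A Y v σ B R e₁ e₂ e S₀ θ₀ hp hN hNa hab hb hM hR he hY hM₀ he₂ hσ
    hrange hθ hB hX hA hrow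
  have hM₀' : (100 : ℝ) ≤ M₀ := by exact_mod_cast hM₀
  have hM₀0 : (0 : ℝ) < M₀ := by linarith only [hM₀']
  -- the deficit and the information
  have hHY : H p Y ≤ Real.log M₀ := by
    have h1 := H_le_log_card hp.nonneg hp.sum_one Y (range M₀) fun ω _ => mem_range.2 (hY ω)
    rwa [card_range] at h1
  have hA' : H p (fun ω => (A ω, v ω)) + H p Y - H p (fun ω => ((A ω, v ω), Y ω)) ≤ e₂ := by
    have h1 : CH p Y (fun ω => (A ω, v ω)) =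
        H p (fun ω => ((A ω, v ω), Y ω)) - H p (fun ω => (A ω, v ω)) := by
      unfold CH
      rw [H_congr hp.nonneg (X := fun ω => (Y ω, (A ω, v ω))) (Y := fun ω => ((A ω, v ω), Y ω))]
      · intro ω ω' _ _ h
        have h1 := Prod.ext_iff.1 h
        exact Prod.ext h1.2 h1.1
      · intro ω ω' _ _ h
        have h1 := Prod.ext_iff.1 h
        exact Prod.ext h1.2 h1.1
    linarith only [hA, hHY, h1]
  have h2 := prm2_thm N a b M Ω ℕ SV p X A Y v (fun s y => ⌊σ s * (y : ℝ)⌋) B R e₁ e₂ e hp hN hNa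
    hab hb hM hR he hB hX hA' hrow
  -- the coordinate is spread
  have hHY' : Real.log ((range M₀).card : ℝ) - e₂ ≤ H p Y := by
    have h3 := subadd hp.nonneg hp.sum_one (X := Y) (Y := fun ω => (A ω, v ω))
      (W := fun ω => (Y ω, (A ω, v ω))) (fun ω ω' _ _ h => h)
    have h4 : CH p Y (fun ω => (A ω, v ω)) ≤ H p Y := by
      unfold CH
      linarith only [h3]
    rw [card_range]
    linarith only [hA, h4]
  have hspread : ∀ c : ℕ, ∑ ω, p ω * (if |(Y ω : ℝ) - c| < M₀ / 16 then 1 else 0) ≤ 1 / 2 := by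
    intro c
    by_contra hcon
    push Not at hcon
    set E : Finset ℕ := (range M₀).filter fun y => |(y : ℝ) - c| < M₀ / 16 with hE
    have h3 : (1 / 2 : ℝ) ≤ Pr p {ω | Y ω ∈ E} := by
      rw [Pr_eq]
      refine hcon.le.trans (le_of_eq (Finset.sum_congr rfl fun ω _ => ?_))
      by_cases h : |(Y ω : ℝ) - c| < M₀ / 16
      · rw [if_pos h, if_pos (by exact mem_filter.2 ⟨mem_range.2 (hY ω), h⟩), mul_one]
      · rw [if_neg h, if_neg (by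
          intro h'
          have h'' : Y ω ∈ E := h'
          exact h (mem_filter.1 h'').2), mul_zero]
    have h4 := gib_thm Ω ℕ p Y (range M₀) E e₂ (1 / 2) hp (fun ω => mem_range.2 (hY ω))
      (filter_subset _ _) (by norm_num) h3 hHY'
    rw [card_range] at h4
    have h5 : (E.card : ℝ) ≤ M₀ / 8 + 1 := by
      have h6 : E ⊆ Finset.Icc (⌈(c : ℝ) - M₀ / 16⌉₊) (⌊(c : ℝ) + M₀ / 16⌋₊) := by
        intro y hy
        have h7 := (mem_filter.1 hy).2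
        rw [abs_lt] at h7
        rw [Finset.mem_Icc]
        constructor
        · exact Nat.ceil_le.2 (by linarith only [h7])
        · exact Nat.le_floor (by linarith only [h7])
      have h7 := Finset.card_le_card h6
      rw [Nat.card_Icc] at h7
      have h8 : ((⌊(c : ℝ) + M₀ / 16⌋₊ : ℕ) : ℝ) ≤ c + M₀ / 16 := Nat.floor_le (by positivity)
      have h9 : (c : ℝ) - M₀ / 16 ≤ ((⌈(c : ℝ) - M₀ / 16⌉₊ : ℕ) : ℝ) := Nat.le_ceil _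
      rcases Nat.lt_or_ge (⌊(c : ℝ) + M₀ / 16⌋₊ + 1) (⌈(c : ℝ) - M₀ / 16⌉₊) with h10 | h10
      · have h11 : E.card = 0 := by omega
        rw [h11]
        push_cast
        positivity
      · have h11 : (E.card : ℝ) + ⌈(c : ℝ) - M₀ / 16⌉₊ ≤ ⌊(c : ℝ) + M₀ / 16⌋₊ + 1 := by
          have : E.card + ⌈(c : ℝ) - M₀ / 16⌉₊ ≤ ⌊(c : ℝ) + M₀ / 16⌋₊ + 1 := by omega
          exact_mod_cast this
        linarith only [h8, h9, h11]
    have h12 : (1 / 5 : ℝ) ≤ Real.exp (-((e₂ + Real.log 2) / (1 / 2))) := by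
      have h13 : -((e₂ + Real.log 2) / (1 / 2)) = -(2 * e₂) + -(2 * Real.log 2) := by ring
      rw [h13, Real.exp_add]
      have h14 : Real.exp (-(2 * Real.log 2)) = 1 / 4 := by
        rw [Real.exp_neg, two_mul, Real.exp_add, Real.exp_log (by norm_num)]
        norm_num
      have h15 := Real.add_one_le_exp (-(2 * e₂))
      rw [h14]
      linarith only [he₂, h15]
    have h16 : (1 / 5 : ℝ) * M₀ ≤ M₀ / 8 + 1 := by
      have := mul_le_mul_of_nonneg_right h12 hM₀0.le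
      linarith only [hM₀', h4, h5, this]
    linarith only [hM₀', h16]
  -- the two labels
  have hkey : ∀ ω₁ ω₂ ω₃, θ₀ ≤ |σ (v ω₁) - σ (v ω₂)| →
      1 / 2 ≤ ∑ ω₄, p ω₄ * (if a ≤ ((((⌊σ (v ω₁) * (Y ω₄ : ℝ)⌋ - ⌊σ (v ω₁) * (Y ω₃ : ℝ)⌋) -
          (⌊σ (v ω₂) * (Y ω₄ : ℝ)⌋ - ⌊σ (v ω₂) * (Y ω₃ : ℝ)⌋) : ℤ)).natAbs) ∧
        M * ((((⌊σ (v ω₁) * (Y ω₄ : ℝ)⌋ - ⌊σ (v ω₁) * (Y ω₃ : ℝ)⌋) -
          (⌊σ (v ω₂) * (Y ω₄ : ℝ)⌋ - ⌊σ (v ω₂) * (Y ω₃ : ℝ)⌋) : ℤ)).natAbs) ≤ 2 * b +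
        ((((⌊σ (v ω₁) * (Y ω₄ : ℝ)⌋ - ⌊σ (v ω₁) * (Y ω₃ : ℝ)⌋) -
          (⌊σ (v ω₂) * (Y ω₄ : ℝ)⌋ - ⌊σ (v ω₂) * (Y ω₃ : ℝ)⌋) : ℤ)).natAbs) then 1 else 0) := by
    intro ω₁ ω₂ ω₃ hθ12
    have h3 := hspread (Y ω₃)
    have h4 : ∑ ω, p ω * (1 - (if |(Y ω : ℝ) - Y ω₃| < M₀ / 16 then (1 : ℝ) else 0)) =
        1 - ∑ ω, p ω * (if |(Y ω : ℝ) - Y ω₃| < M₀ / 16 then 1 else 0) := by
      simp only [mul_sub, mul_one, Finset.sum_sub_distrib, hp.sum_one]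
    have h5 : (1 / 2 : ℝ) ≤
        ∑ ω, p ω * (1 - (if |(Y ω : ℝ) - Y ω₃| < M₀ / 16 then (1 : ℝ) else 0)) := by
      rw [h4]
      linarith only [h3]
    refine h5.trans (Finset.sum_le_sum fun ω₄ _ => mul_le_mul_of_nonneg_left ?_ (hp.nonneg _))
    by_cases hfar : |(Y ω₄ : ℝ) - Y ω₃| < M₀ / 16
    · rw [if_pos hfar]
      split_ifs <;> norm_num
    · rw [if_neg hfar]
      push Not at hfar
      set z : ℤ := (⌊σ (v ω₁) * (Y ω₄ : ℝ)⌋ - ⌊σ (v ω₁) * (Y ω₃ : ℝ)⌋) -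
          (⌊σ (v ω₂) * (Y ω₄ : ℝ)⌋ - ⌊σ (v ω₂) * (Y ω₃ : ℝ)⌋) with hz
      have f1 := Int.floor_le (σ (v ω₁) * (Y ω₄ : ℝ))
      have f1' := Int.lt_floor_add_one (σ (v ω₁) * (Y ω₄ : ℝ))
      have f2 := Int.floor_le (σ (v ω₁) * (Y ω₃ : ℝ))
      have f2' := Int.lt_floor_add_one (σ (v ω₁) * (Y ω₃ : ℝ))
      have f3 := Int.floor_le (σ (v ω₂) * (Y ω₄ : ℝ))
      have f3' := Int.lt_floor_add_one (σ (v ω₂) * (Y ω₄ : ℝ))
      have f4 := Int.floor_le (σ (v ω₂) * (Y ω₃ : ℝ))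
      have f4' := Int.lt_floor_add_one (σ (v ω₂) * (Y ω₃ : ℝ))
      have hzr : (z : ℝ) = (⌊σ (v ω₁) * (Y ω₄ : ℝ)⌋ - ⌊σ (v ω₁) * (Y ω₃ : ℝ)⌋) -
          (⌊σ (v ω₂) * (Y ω₄ : ℝ)⌋ - ⌊σ (v ω₂) * (Y ω₃ : ℝ)⌋) := by
        rw [hz]
        push_cast
        ring
      have hzd : |(z : ℝ) - (σ (v ω₁) - σ (v ω₂)) * ((Y ω₄ : ℝ) - Y ω₃)| ≤ 2 := by
        rw [abs_le]
        constructor <;> nlinarith
      have hprod : |(σ (v ω₁) - σ (v ω₂)) * ((Y ω₄ : ℝ) - Y ω₃)| =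
          |σ (v ω₁) - σ (v ω₂)| * |(Y ω₄ : ℝ) - Y ω₃| := abs_mul _ _
      have hlow : (a : ℝ) ≤ |(z : ℝ)| := by
        have g1 : θ₀ * (M₀ / 16) ≤ |σ (v ω₁) - σ (v ω₂)| * |(Y ω₄ : ℝ) - Y ω₃| := by
          exact mul_le_mul hθ12 hfar (by positivity) (abs_nonneg _)
        have g2 := abs_sub_abs_le_abs_sub ((σ (v ω₁) - σ (v ω₂)) * ((Y ω₄ : ℝ) - Y ω₃)) (z : ℝ)
        rw [abs_sub_comm] at g2
        rw [hprod] at g2
        linarith only [hθ, hzd, g1, g2]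
      have hup : |(z : ℝ)| ≤ 2 * S₀ * M₀ + 2 := by
        have g1 : |(Y ω₄ : ℝ) - Y ω₃| ≤ M₀ := by
          have y1 : (Y ω₄ : ℝ) < M₀ := by exact_mod_cast hY ω₄
          have y2 : (Y ω₃ : ℝ) < M₀ := by exact_mod_cast hY ω₃
          have y3 : (0 : ℝ) ≤ Y ω₄ := by positivity
          have y4 : (0 : ℝ) ≤ Y ω₃ := by positivity
          rw [abs_le]
          constructor <;> linarith
        have g2 : |σ (v ω₁) - σ (v ω₂)| ≤ 2 * S₀ := by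
          have y1 := abs_le.1 (hσ (v ω₁))
          have y2 := abs_le.1 (hσ (v ω₂))
          rw [abs_le]
          constructor <;> linarith only [y1, y2, y1.1, y1.2, y2.1, y2.2]
        have g3 := abs_sub_abs_le_abs_sub (z : ℝ) ((σ (v ω₁) - σ (v ω₂)) * ((Y ω₄ : ℝ) - Y ω₃))
        rw [hprod] at g3
        have g4 : |σ (v ω₁) - σ (v ω₂)| * |(Y ω₄ : ℝ) - Y ω₃| ≤ 2 * S₀ * M₀ :=
          mul_le_mul g2 g1 (abs_nonneg _) (le_trans (abs_nonneg _) g2)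
        linarith only [hzd, g3, g4]
      have hna : ((z.natAbs : ℕ) : ℝ) = |(z : ℝ)| := by
        rw [Nat.cast_natAbs, Int.cast_abs]
      rw [if_pos]
      · norm_num
      · constructor
        · have : (a : ℝ) ≤ ((z.natAbs : ℕ) : ℝ) := by rw [hna]; exact hlow
          exact_mod_cast this
        · have g5 : (M : ℝ) * ((z.natAbs : ℕ) : ℝ) ≤ 2 * b := by
            rw [hna]
            have g6 : (M : ℝ) * |(z : ℝ)| ≤ M * (2 * S₀ * M₀ + 2) :=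
              mul_le_mul_of_nonneg_left hup (by positivity)
            linarith only [hrange, g6]
          have g7 : M * z.natAbs ≤ 2 * b := by exact_mod_cast g5
          omega
  have hη : ∑ ω₁, ∑ ω₂, p ω₁ * p ω₂ * (if θ₀ ≤ |σ (v ω₁) - σ (v ω₂)| then 1 else 0) * (1 / 2) ≤
      8 * (Real.sqrt e₁ + Real.sqrt e₂ + Pr p B + R / N) / e := by
    refine le_trans ?_ h2
    refine Finset.sum_le_sum fun ω₁ _ => Finset.sum_le_sum fun ω₂ _ => ?_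
    have n1 : 0 ≤ p ω₁ * p ω₂ := mul_nonneg (hp.nonneg _) (hp.nonneg _)
    by_cases hc : θ₀ ≤ |σ (v ω₁) - σ (v ω₂)|
    · rw [if_pos hc, mul_one]
      have h3 : ∀ ω₃, p ω₁ * p ω₂ * p ω₃ * (1 / 2) ≤ ∑ ω₄, p ω₁ * p ω₂ * p ω₃ * p ω₄ *
          (if a ≤ ((((⌊σ (v ω₁) * (Y ω₄ : ℝ)⌋ - ⌊σ (v ω₁) * (Y ω₃ : ℝ)⌋) -
            (⌊σ (v ω₂) * (Y ω₄ : ℝ)⌋ - ⌊σ (v ω₂) * (Y ω₃ : ℝ)⌋) : ℤ)).natAbs) ∧
          M * ((((⌊σ (v ω₁) * (Y ω₄ : ℝ)⌋ - ⌊σ (v ω₁) * (Y ω₃ : ℝ)⌋) -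
            (⌊σ (v ω₂) * (Y ω₄ : ℝ)⌋ - ⌊σ (v ω₂) * (Y ω₃ : ℝ)⌋) : ℤ)).natAbs) ≤ 2 * b +
          ((((⌊σ (v ω₁) * (Y ω₄ : ℝ)⌋ - ⌊σ (v ω₁) * (Y ω₃ : ℝ)⌋) -
            (⌊σ (v ω₂) * (Y ω₄ : ℝ)⌋ - ⌊σ (v ω₂) * (Y ω₃ : ℝ)⌋) : ℤ)).natAbs)
          then 1 else 0) := by
        intro ω₃
        refine (mul_le_mul_of_nonneg_left (hkey ω₁ ω₂ ω₃ hc)
          (mul_nonneg n1 (hp.nonneg ω₃))).trans (le_of_eq ?_)
        rw [Finset.mul_sum]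
        exact Finset.sum_congr rfl fun ω₄ _ => by ring
      refine le_trans (le_of_eq ?_) (Finset.sum_le_sum fun ω₃ _ => h3 ω₃)
      rw [← Finset.sum_mul, ← Finset.mul_sum, hp.sum_one, mul_one]
    · rw [if_neg hc, mul_zero, zero_mul]
      refine Finset.sum_nonneg fun ω₃ _ => Finset.sum_nonneg fun ω₄ _ => ?_
      refine mul_nonneg (mul_nonneg (mul_nonneg n1 (hp.nonneg _)) (hp.nonneg _)) ?_
      split_ifs <;> norm_num
  simp only [← Finset.sum_mul] at hη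
  have hfin : 16 * (Real.sqrt e₁ + Real.sqrt e₂ + Pr p B + R / N) / e =
      2 * (8 * (Real.sqrt e₁ + Real.sqrt e₂ + Pr p B + R / N) / e) := by ring
  rw [hfin]
  linarith only [hη]

end Pool.KAL
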